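import Pool.Agent.BT3.Low
import Pool.Agent.BT3.Lay
import Pool.Agent.BT3.Deg

/-!
# MP_6a04bd_co: three pages for the 1-subdivision do not bound the book thickness, even for bounded degree

For every `s` there is a finite simple graph `G` of maximum degree at most `14` whose 1-subdivision `G'` (every edge subdivided
exactly once) has a 3-page book embedding and which itself has no `s`-page book embedding.
-/

set_option autoImplicit false

namespace Pool.Agent.Results.MP_6a04bd_co.ThreePages

theorem result :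
    ∀ s : ℕ, ∃ (V : Type) (_ : Fintype V) (G : SimpleGraph V),
      (∀ v : V, (G.neighborSet v).ncard ≤ 14) ∧
      (∃ p : V ⊕ ↥G.edgeSet → ℕ, Function.Injective p ∧
        ∃ c : V ⊕ ↥G.edgeSet → V ⊕ ↥G.edgeSet → Fin 3,
          (∀ x y, c x y = c y x) ∧
          ∀ a b x y : V ⊕ ↥G.edgeSet,
            (SimpleGraph.fromRel (fun s t : V ⊕ ↥G.edgeSet =>
                ∃ (v : V) (e : ↥G.edgeSet), s = Sum.inl v ∧ t = Sum.inr e ∧ v ∈ (e : Sym2 V))).Adj a b →
            (SimpleGraph.fromRel (fun s t : V ⊕ ↥G.edgeSet =>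
                ∃ (v : V) (e : ↥G.edgeSet), s = Sum.inl v ∧ t = Sum.inr e ∧ v ∈ (e : Sym2 V))).Adj x y →
            p a < p x → p x < p b → p b < p y → c a b ≠ c x y) ∧
      ¬ (∃ p : V → ℕ, Function.Injective p ∧
        ∃ c : V → V → Fin s,
          (∀ u v, c u v = c v u) ∧
          ∀ a b x y : V, G.Adj a b → G.Adj x y →
            p a < p x → p x < p b → p b < p y → c a b ≠ c x y) := by
  intro s
  exact ⟨Pool.Agent.BT3.VT (s ^ 3 + 1), inferInstance, Pool.Agent.BT3.GG (s ^ 3 + 1),
    fun v => Pool.Agent.BT3.deg v, Pool.Agent.BT3.lay (s ^ 3 + 1), Pool.Agent.BT3.low s⟩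

end Pool.Agent.Results.MP_6a04bd_co.ThreePages
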